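import Pool.Agent.X13.CB.Main

/-!
# MP_06821b_nt, Q1 (answered positively, in a stronger form)

For all `m ≥ 1`, `n ≥ 0`, `k ≥ m + 2`: `b_{2^m}(2^(k+1) n) ≡ b_{2^m}(2^(k-1) n) (mod 2^k)`.
In fact even `b_{2^m}(2^k n) ≡ b_{2^m}(2^(k-1) n) (mod 2^k)` for all `k ≥ m + 2`.

Proof idea: put `M = 2^m`, `u = (1+x)/(1-x)`, `J = ∏ u(x^(2^i))^M`, so that
`∏ (1-x^(2^i))^(-M) = J (1-x)^M`, and `U(J f) = J T(f)` with `T f = U(u^M f)`, `U` the dissection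
operator.  Since `u^2 + 1 = 2 u(x^2) u`, the operator `U` acts on `ℤ[u]` through Chebyshev
polynomials: `U(u^n) = T_n(u)`, `U(x u^n) = (u-1) U_{n-1}(u)`.  One checks that
`T^(m+1) x^i ∈ (1 + 2^m ℤ[u]) ∪ 2^m (u-1) ℤ[u]` for `i ≤ 2^m`, that `T f - f ∈ (1-u^2) ℤ[u]` for
`f ∈ ℤ[u]`, and that `T` maps `(1-u^2) ℤ[u]` into `2 (1-u^2) ℤ[u]`; finally `4 ∣ 1-u^2`.
-/

namespace Pool.Agent.Results.MP_06821b_nt.ColouredBinary

open PowerSeries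

/-- `b M n`: the coefficient of `x^n` in `∏_{i ≥ 0} (1 - x^(2^i))^(-M)`; only the factors with
`2^i ≤ n`, hence `i ≤ n`, matter, so the product is taken over `i ≤ n`.
(`invOfUnit (1 - X^(2^i)) 1` is the inverse of the power series `1 - X^(2^i)`.) -/
noncomputable def b (M n : ℕ) : ℤ :=
  coeff n ((∏ i ∈ Finset.range (n + 1), invOfUnit (1 - (X : PowerSeries ℤ) ^ (2 ^ i)) 1) ^ M)

theorem result :
    -- `invOfUnit` really gives the inverses of the factors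
    (∀ i : ℕ, (1 - (X : PowerSeries ℤ) ^ (2 ^ i)) * invOfUnit (1 - X ^ (2 ^ i)) 1 = 1) ∧
    -- longer products do not change the coefficient
    (∀ M n N : ℕ, n + 1 ≤ N →
      coeff n ((∏ i ∈ Finset.range N, invOfUnit (1 - (X : PowerSeries ℤ) ^ (2 ^ i)) 1) ^ M)
        = b M n) ∧
    -- the congruences
    ∀ m n k : ℕ, 1 ≤ m → m + 2 ≤ k →
      b (2 ^ m) (2 ^ (k + 1) * n) ≡ b (2 ^ m) (2 ^ (k - 1) * n) [ZMOD 2 ^ k] ∧
      b (2 ^ m) (2 ^ k * n) ≡ b (2 ^ m) (2 ^ (k - 1) * n) [ZMOD 2 ^ k] := by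
  refine ⟨X13.CB.gi_mul, X13.CB.coeff_PP_stable, ?_⟩
  intro m n k hm hk
  obtain ⟨m, rfl⟩ : ∃ m', m = m' + 1 := ⟨m - 1, by omega⟩
  have h1 : (2 : ℤ) ^ k ∣ b (2 ^ (m + 1)) (2 ^ k * n) - b (2 ^ (m + 1)) (2 ^ (k - 1) * n) :=
    X13.CB.main m k n (by omega)
  have h2 : (2 : ℤ) ^ (k + 1) ∣ b (2 ^ (m + 1)) (2 ^ (k + 1) * n) - b (2 ^ (m + 1)) (2 ^ k * n) :=
    X13.CB.main m (k + 1) n (by omega)
  have h3 : (2 : ℤ) ^ k ∣ b (2 ^ (m + 1)) (2 ^ (k + 1) * n) - b (2 ^ (m + 1)) (2 ^ k * n) :=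
    (pow_dvd_pow 2 (Nat.le_succ k)).trans h2
  constructor
  · have h4 := dvd_add h3 h1
    rw [sub_add_sub_cancel] at h4
    exact (Int.modEq_iff_dvd.mpr h4).symm
  · exact (Int.modEq_iff_dvd.mpr h1).symm

end Pool.Agent.Results.MP_06821b_nt.ColouredBinary
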